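import Mathlib
import Pool.Agent.Lib_helper14.HKC.DefsC

/-!
# Project HK (MP_5fc650_pr), Part K: the lower bound. Definitions.
-/

set_option autoImplicit false

namespace HKK

open MeasureTheory QG HK HKC

/-- the threshold -/
noncomputable def z0 : ℝ := 1 / 2 ^ 21

/-- the part of the weight that vanishes quadratically -/
noncomputable def w1 (t : Fin 4 → ℝ) : ℝ := wh t ^ 2 / (wh t + z0)

/-- the small part of the weight -/
noncomputable def w2 (t : Fin 4 → ℝ) : ℝ := wh t * z0 / (wh t + z0)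

/-- two different corners have heights at distance at most `r` -/
def near (r : ℝ) (t : Fin 4 → ℝ) : Prop := ∃ i j : Fin 4, i ≠ j ∧ |t i - t j| ≤ r

open Classical in
/-- the error term of a cell -/
noncomputable def er (η : ℝ) (t : Fin 4 → ℝ) : ℝ := (if near η t then 2 * η else 0) + η ^ 2 / z0

section
variable (n : ℕ) [NeZero n]

/-- the weight, the cells of `T` with the small part -/
noncomputable def FT (T : Finset (Od n)) (a : Ev n → ℝ) : ℝ :=
  (∏ v ∈ Finset.univ \ T, w1 (loc (cn n) a v)) * ∏ v ∈ T, w2 (loc (cn n) a v)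

/-- the same without the cell `v` -/
noncomputable def Fv (T : Finset (Od n)) (v : Od n) (a : Ev n → ℝ) : ℝ :=
  (∏ u ∈ (Finset.univ \ T).erase v, w1 (loc (cn n) a u)) * ∏ u ∈ T, w2 (loc (cn n) a u)

/-- no two different cells of `S` are diagonal neighbours -/
def Sep (S : Finset (Od n)) : Prop :=
  ∀ u ∈ S, ∀ u' ∈ S, ∀ a b : ℤ, |a| ≤ 1 → |b| ≤ 1 → u.1 + of n a b = u'.1 → u = u'

/-- the cells `u` and `v` have no common corner -/
def Apt (u v : Od n) : Prop := ∀ i j : Fin 4, cn n u i ≠ cn n v j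

/-- `Chn n M y y' S`: the `M` cells of `S` form a chain from `y` to `y'` -/
inductive Chn : ℕ → Ev n → Ev n → Finset (Od n) → Prop
  | nil (y : Ev n) : Chn 0 y y ∅
  | cons {M : ℕ} {u : Od n} {y' : Ev n} {S : Finset (Od n)} (i j : Fin 4) :
      Chn M (cn n u j) y' S → u ∉ S → Chn (M + 1) (cn n u i) y' (insert u S)

/-- `y` and `y'` are corners of a cell of `T` -/
def Rc (T : Finset (Od n)) (y y' : Ev n) : Prop :=
  ∃ v ∈ T, ∃ i j : Fin 4, cn n v i = y ∧ cn n v j = y'

/-- half of the graph distance to `0` -/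
def lev (y : Ev n) : ℕ := lv n (dg n 0) y

/-- the wave -/
noncomputable def gg (b : ℝ) (y : Ev n) : ℝ := b * Real.log (1 + lev n y)

/-- the wave made constant on the clusters of `T` -/
noncomputable def gT (T : Finset (Od n)) (b : ℝ) (y : Ev n) : ℝ :=
  sInf {r | ∃ y', Relation.ReflTransGen (Rc n T) y y' ∧ r = gg n b y'}

/-- the bound for the oscillation of the wave in the cell `v` -/
noncomputable def et (b : ℝ) (M : ℕ) (v : Od n) : ℝ :=
  b * (2 * (2 + (M : ℝ)) ^ 2 / (1 + lev n (cn n v 0)))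

end

end HKK
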