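import Mathlib
import Pool.Agent.Lib_helper69.HKK.DefsK
import Pool.Agent.Lib_helper69.QG.W.fa
import Pool.Agent.Lib_helper69.QG.W.pe
import Pool.Agent.Lib_helper14.HKC.W.ca
import Pool.Agent.Lib_helper14.HKC.W.cb
import Pool.Agent.Lib_helper14.HKC.W.cf
import Pool.Agent.Lib_helper14.HKC.W.ch
import Pool.Agent.Lib_helper14.HKC.W.cp

/-!
# Project HK (MP_5fc650_pr), Part K: the theorems of the other parts that are used
-/
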