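import Mathlib
import Pool.Agent.Lib_helper69.HKK.Ifc
import Pool.Agent.Lib_helper69.HKK.W.kc
import Pool.Agent.Lib_helper69.HKK.W.kj
import Pool.Agent.Lib_helper69.HKK.W.kl
import Pool.Agent.Lib_helper69.HKK.W.km
import Pool.Agent.Lib_helper69.HKK.W.kn

set_option autoImplicit false

namespace HKK

open MeasureTheory QG HK HKC

/-- the weight of `T` -/
noncomputable def zz (n : ℕ) [NeZero n] (T : Finset (Od n)) : ENNReal :=
  ∫⁻ a, ENNReal.ofReal (FT n T a) ∂bs (pp n)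

/-- the second moment of `T` -/
noncomputable def mm (n : ℕ) [NeZero n] (T : Finset (Od n)) : ENNReal :=
  ∫⁻ a, ENNReal.ofReal ((a (dg n n) - a (dg n 0)) ^ 2 * FT n T a) ∂bs (pp n)

/-- the error of `T` -/
noncomputable def rr (n : ℕ) [NeZero n] (b : ℝ) (T : Finset (Od n)) : ENNReal :=
  ∑ v ∈ Finset.univ \ T,
    ∫⁻ a, ENNReal.ofReal (er (osc (loc (cn n) (gT n T b) v)) (loc (cn n) a v) *
      Fv n T v a) ∂bs (pp n)

/-- a sum of extended numbers that is finite, as a sum of real numbers -/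
theorem toReal_sum_le {ι : Type} [Fintype ι] {f : ι → ENNReal} {x : ENNReal} (hx : x ≠ ⊤)
    (h : ∑ i, f i ≤ x) : (∀ i, f i ≠ ⊤) ∧ ∑ i, (f i).toReal ≤ x.toReal := by
  have h1 : ∀ i, f i ≠ ⊤ := fun i =>
    ne_top_of_le_ne_top hx ((Finset.single_le_sum (f := f) (fun _ _ => zero_le)
      (Finset.mem_univ i)).trans h)
  refine ⟨h1, ?_⟩
  rw [← ENNReal.toReal_sum fun i _ => h1 i]
  exact ENNReal.toReal_mono hx h

open Classical in
/-- the inequality for one good set -/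
theorem good_T (n : ℕ) [NeZero n] (T : Finset (Od n)) {b g0 : ℝ} (hb : 0 < b) (hg : 0 < g0)
    (hg0 : g0 = b * Real.log n / 2) (hz : zz n T ≠ ⊤) (hm : mm n T ≠ ⊤) (hr : rr n b T ≠ ⊤)
    (h : ¬ ∃ (M : ℕ) (S : Finset (Od n)) (y' : Ev n), S ⊆ T ∧ Chn n M (dg n n) y' S ∧ n < 2 * M) :
    (zz n T).toReal ≤ (mm n T).toReal / g0 ^ 2 + (zz n T).toReal / 4 + (rr n b T).toReal := by
  have hs : 0 < 2 / g0 := by positivity
  have hfar := gT_far n T hb.le (fun M S y' h1 h2 => by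
    by_contra h3
    exact h ⟨M, S, y', h1, h2, not_le.1 h3⟩)
  have hzero := gT_zero n T hb.le
  have key := FT_int n T (gT n T b) (η := fun v => osc (loc (cn n) (gT n T b) v)) (s := 2 / g0)
    (γ := gT n T b (dg n n)) (fun v hv i j => gT_const n T b hv i j) (fun _ _ => le_refl _) hs
    (hzero.2 _) (by rw [hzero.1, sub_zero])
  set G : ℝ := gT n T b (dg n n) with hG
  have hGg : g0 ≤ G := by rw [hg0]; exact hfar
  change ENNReal.ofReal (2 * G) * zz n T ≤ ENNReal.ofReal (2 / g0) * mm n T +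
    ENNReal.ofReal (1 / (2 / g0)) * zz n T + ENNReal.ofReal (2 * G) * rr n b T at key
  have hG0 : 0 < G := hg.trans_le hGg
  have k2 := ENNReal.toReal_mono (ENNReal.add_ne_top.2 ⟨ENNReal.add_ne_top.2
    ⟨ENNReal.mul_ne_top ENNReal.ofReal_ne_top hm, ENNReal.mul_ne_top ENNReal.ofReal_ne_top hz⟩,
    ENNReal.mul_ne_top ENNReal.ofReal_ne_top hr⟩) key
  rw [ENNReal.toReal_add (ENNReal.add_ne_top.2
    ⟨ENNReal.mul_ne_top ENNReal.ofReal_ne_top hm, ENNReal.mul_ne_top ENNReal.ofReal_ne_top hz⟩)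
    (ENNReal.mul_ne_top ENNReal.ofReal_ne_top hr), ENNReal.toReal_add
    (ENNReal.mul_ne_top ENNReal.ofReal_ne_top hm) (ENNReal.mul_ne_top ENNReal.ofReal_ne_top hz),
    ENNReal.toReal_mul, ENNReal.toReal_mul, ENNReal.toReal_mul, ENNReal.toReal_mul,
    ENNReal.toReal_ofReal (by positivity), ENNReal.toReal_ofReal (by positivity),
    ENNReal.toReal_ofReal (by positivity)] at k2
  set z := (zz n T).toReal with hzd
  set m := (mm n T).toReal with hmd
  set r := (rr n b T).toReal with hrd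
  have z0' : 0 ≤ z := ENNReal.toReal_nonneg
  have m0 : 0 ≤ m := ENNReal.toReal_nonneg
  have e1 : 1 / (2 / g0) = g0 / 2 := by field_simp
  rw [e1] at k2
  -- 2 G z ≤ (2/g0) m + (g0/2) z + 2 G r
  have h2 : z ≤ (2 / g0 * m + g0 / 2 * z) / (2 * G) + r := by
    rw [div_add' _ _ _ (by positivity), le_div_iff₀ (by positivity)]
    linarith
  have h3 : (2 / g0 * m + g0 / 2 * z) / (2 * G) ≤ (2 / g0 * m + g0 / 2 * z) / (2 * g0) := by
    apply div_le_div_of_nonneg_left (by positivity) (by positivity)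
    linarith
  have h4 : (2 / g0 * m + g0 / 2 * z) / (2 * g0) = m / g0 ^ 2 + z / 4 := by
    field_simp
    ring
  linarith

end HKK

namespace HK

open MeasureTheory QG HKC HKK

open Classical in
/-- Part K: lower bound -/
theorem lower_h : ∃ (c : ℝ) (n0 : ℕ), 0 < c ∧ ∀ (n : ℕ) [NeZero n], n0 ≤ n →
    c * Real.log n ≤ ∫ a, (a (dg n n) - a (dg n 0)) ^ 2 ∂muh n 0 := by
  obtain ⟨C, hC, hE⟩ := err_sum
  obtain ⟨n1, hn1, hB⟩ := bad_sets
  refine ⟨3 / (256 * C), max n1 3, by positivity, fun n _ hn => ?_⟩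
  have hn3 : 3 ≤ n := le_trans (le_max_right _ _) hn
  have hn1' : n1 ≤ n := le_trans (le_max_left _ _) hn
  have hL : 0 < Real.log n := Real.log_pos (by exact_mod_cast (by omega : 1 < n))
  set L := Real.log n with hLd
  set E := ∫ a, (a (dg n n) - a (dg n 0)) ^ 2 ∂muh n 0 with hEd
  have hE0 : 0 ≤ E := integral_nonneg fun a => sq_nonneg _
  set b : ℝ := 1 / Real.sqrt (8 * C * L) with hbd
  have hb : 0 < b := by positivity
  have hb2 : C * b ^ 2 * L = 1 / 8 := by
    rw [hbd, div_pow, one_pow, Real.sq_sqrt (by positivity)]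
    field_simp
  set g0 : ℝ := b * L / 2 with hg0d
  have hg0 : 0 < g0 := by positivity
  have hg2 : g0 ^ 2 = L / (32 * C) := by
    have : g0 ^ 2 = (C * b ^ 2 * L) * L / (4 * C) := by
      rw [hg0d]; field_simp; ring
    rw [this, hb2]; field_simp; ring
  have hZt := vol_fin n (pp n).1
  have hZ0 := vol_pos n (pp n).1
  set Z := vol n (pp n).1 ∅ Set.univ with hZd
  have hz : 0 < Z.toReal := ENNReal.toReal_pos hZ0 hZt
  obtain ⟨t1, t2⟩ := tot_FT n
  have t1' : ∑ T : Finset (Od n), zz n T = Z := t1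
  have t2' : ∑ T : Finset (Od n), mm n T = ENNReal.ofReal E * Z := t2
  have t3 : ∑ T : Finset (Od n), rr n b T ≤ ENNReal.ofReal (1 / 8) * Z := by
    have := hE n (by omega) b hb.le
    rw [← hLd, hb2] at this
    exact this
  have a1 := toReal_sum_le hZt t1'.le
  have a2 := toReal_sum_le (ENNReal.mul_ne_top ENNReal.ofReal_ne_top hZt) t2'.le
  have a3 := toReal_sum_le (ENNReal.mul_ne_top ENNReal.ofReal_ne_top hZt) t3
  rw [ENNReal.toReal_mul, ENNReal.toReal_ofReal hE0] at a2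
  rw [ENNReal.toReal_mul, ENNReal.toReal_ofReal (by norm_num)] at a3
  have a0 : ∑ T : Finset (Od n), (zz n T).toReal = Z.toReal := by
    rw [← ENNReal.toReal_sum fun i _ => a1.1 i, t1']
  have a4 : ∑ T ∈ Finset.univ.filter (fun T : Finset (Od n) => ∃ (M : ℕ) (S : Finset (Od n))
      (y' : Ev n), S ⊆ T ∧ Chn n M (dg n n) y' S ∧ n < 2 * M), (zz n T).toReal ≤
      1 / 4 * Z.toReal := by
    rw [← ENNReal.toReal_sum fun i _ => a1.1 i]
    have h5 := ENNReal.toReal_mono (ENNReal.mul_ne_top ENNReal.ofReal_ne_top hZt) (hB n hn1')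
    rw [ENNReal.toReal_mul, ENNReal.toReal_ofReal (by norm_num)] at h5
    exact h5
  -- split
  have sp := Finset.sum_filter_add_sum_filter_not Finset.univ (fun T : Finset (Od n) =>
    ∃ (M : ℕ) (S : Finset (Od n)) (y' : Ev n), S ⊆ T ∧ Chn n M (dg n n) y' S ∧ n < 2 * M)
    (fun T => (zz n T).toReal)
  rw [a0] at sp
  have gd : ∑ T ∈ Finset.univ.filter (fun T : Finset (Od n) => ¬ ∃ (M : ℕ) (S : Finset (Od n))
      (y' : Ev n), S ⊆ T ∧ Chn n M (dg n n) y' S ∧ n < 2 * M), (zz n T).toReal ≤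
      ∑ T : Finset (Od n), ((mm n T).toReal / g0 ^ 2 + (zz n T).toReal / 4 +
        (rr n b T).toReal) := by
    refine le_trans (Finset.sum_le_sum fun T hT => good_T n T hb hg0 hg0d (a1.1 T) (a2.1 T)
      (a3.1 T) (Finset.mem_filter.1 hT).2) ?_
    apply Finset.sum_le_sum_of_subset_of_nonneg (Finset.filter_subset _ _)
    intro T _ _
    have := ENNReal.toReal_nonneg (a := mm n T)
    have := ENNReal.toReal_nonneg (a := zz n T)
    have := ENNReal.toReal_nonneg (a := rr n b T)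
    positivity
  rw [Finset.sum_add_distrib, Finset.sum_add_distrib, ← Finset.sum_div, ← Finset.sum_div,
    a0] at gd
  have g2 : (∑ T : Finset (Od n), (mm n T).toReal) / g0 ^ 2 ≤ E * Z.toReal / g0 ^ 2 := by
    gcongr
    exact a2.2
  have fin : 3 / 8 * Z.toReal ≤ E * Z.toReal / g0 ^ 2 := by
    have := a3.2
    linarith
  have f2 : 3 / 8 * g0 ^ 2 ≤ E := by
    rw [le_div_iff₀ (by positivity)] at fin
    have : (3 / 8 * g0 ^ 2) * Z.toReal ≤ E * Z.toReal := by linarith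
    exact le_of_mul_le_mul_right this hz
  rw [hg2] at f2
  calc 3 / (256 * C) * L = 3 / 8 * (L / (32 * C)) := by field_simp; ring
    _ ≤ E := f2

end HK
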